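import Pool.Agent.Helper509.SQ.Index

/-!
A commuting pair `(A, K)` with an exact Koszul complex, `K` compact and `A` Fredholm: `A` is a
compact perturbation of an invertible operator.
-/

set_option autoImplicit false

open Filter Topology Module Polynomial

namespace Pool.Agent.V8H59.KP

variable {X : Type} [NormedAddCommGroup X] [NormedSpace ℂ X]

lemma mulA (S T : X →L[ℂ] X) (x : X) : (S * T) x = S (T x) := rfl

lemma mulE {M : Type} [AddCommGroup M] [Module ℂ M] (S T : M →ₗ[ℂ] M) (x : M) :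
    (S * T) x = S (T x) := rfl

/-- The kernels of the powers of an identity plus compact operator become stationary. -/
theorem ascent {S : X →L[ℂ] X} (hK : IsCompactOperator (S - 1 : X →L[ℂ] X)) :
    ∃ n, ∀ x, (S ^ (n + 1)) x = 0 → (S ^ n) x = 0 := by
  by_contra hcon
  push Not at hcon
  choose x hx hx' using hcon
  set K : X →L[ℂ] X := S - 1 with hKdef
  let N : ℕ → Submodule ℂ X := fun n => LinearMap.ker ((S ^ n : X →L[ℂ] X) : X →ₗ[ℂ] X)
  have hNmem : ∀ n z, z ∈ N n ↔ (S ^ n) z = 0 := fun n z => Iff.rfl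
  have hmono : ∀ n m, n ≤ m → N n ≤ N m := by
    intro n m h z hz
    rw [hNmem] at hz ⊢
    obtain ⟨k, rfl⟩ := Nat.exists_eq_add_of_le h
    rw [add_comm, pow_add, mulA, hz, map_zero]
  have hmap : ∀ n z, z ∈ N (n + 1) → S z ∈ N n := by
    intro n z hz
    rw [hNmem] at hz ⊢
    rwa [pow_succ, mulA] at hz
  have hclosed : ∀ n, IsClosed (N n : Set X) := fun n =>
    (S ^ n : X →L[ℂ] X).isClosed_ker
  have hriesz : ∀ n, ∃ y ∈ N (n + 1), ‖y‖ ≤ 3 ∧ ∀ z ∈ N n, 1 ≤ ‖y - z‖ := by
    intro n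
    have h₁ : IsClosed ((N n).comap (N (n + 1)).subtype : Set (N (n + 1))) := by
      simpa using! (hclosed n).preimage_val
    have h₂ : ∃ z : N (n + 1), z ∉ (N n).comap (N (n + 1)).subtype :=
      ⟨⟨x n, hx n⟩, fun h => hx' n h⟩
    have hc2 : (1 : ℝ) < ‖((2 : ℝ) : ℂ)‖ := by
      rw [Complex.norm_real]; norm_num
    have hR : ‖((2 : ℝ) : ℂ)‖ < 3 := by
      rw [Complex.norm_real]; norm_num
    obtain ⟨⟨y, hy⟩, hyn, hyz⟩ := riesz_lemma_of_norm_lt hc2 hR h₁ h₂
    refine ⟨y, hy, hyn, fun z hz => ?_⟩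
    exact hyz ⟨z, hmono n (n + 1) (Nat.le_succ n) hz⟩ hz
  choose y hy hyn hyz using hriesz
  have hsep : ∀ m n, m < n → 1 ≤ ‖K (y n) - K (y m)‖ := by
    intro m n hmn
    have e : K (y n) - K (y m) = -(y n - (S (y n) - S (y m) + y m)) := by
      simp only [hKdef, _root_.sub_apply, one_apply_eq_self]
      abel
    rw [e, norm_neg]
    refine hyz n _ ?_
    refine Submodule.add_mem _ (Submodule.sub_mem _ (hmap n _ (hy n)) ?_) ?_
    · exact hmono m n hmn.le (hmap m _ (hy m))
    · exact hmono (m + 1) n hmn (hy m)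
  obtain ⟨C, hC, hC'⟩ := hK.image_closedBall_subset_compact (𝕜₁ := ℂ) (f := (K : X →ₗ[ℂ] X)) 3
  obtain ⟨w, hw, ψ, hψ, hψw⟩ := hC.tendsto_subseq (x := fun n => K (y n))
    (fun n => hC' ⟨y n, by simpa using hyn n, rfl⟩)
  have hcau := hψw.cauchySeq
  rw [Metric.cauchySeq_iff'] at hcau
  obtain ⟨M, hM⟩ := hcau 1 one_pos
  have h1 := hM (M + 1) (Nat.le_succ M)
  rw [dist_eq_norm_sub] at h1
  exact absurd (hsep _ _ (hψ (Nat.lt_succ_self M))) (not_le.2 h1)

/-- powers of identity plus compact -/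
lemma pow_sub_one_compact {S : X →L[ℂ] X} (hK : IsCompactOperator (S - 1 : X →L[ℂ] X)) (n : ℕ) :
    IsCompactOperator (S ^ n - 1 : X →L[ℂ] X) := by
  induction n with
  | zero =>
    have : (S ^ 0 - 1 : X →L[ℂ] X) = 0 := by simp
    rw [this]
    exact isCompactOperator_zero
  | succ n ih =>
    have : (S ^ (n + 1) - 1 : X →L[ℂ] X) = (S ^ n - 1) ∘L S + (S - 1) := by
      have h : (S ^ n - 1) ∘L S = (S ^ n - 1) * S := rfl
      rw [h, sub_mul, one_mul, pow_succ]
      abel
    rw [this]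
    exact (ih.comp_clm S).add hK

/-- a polynomial in a compact operator, minus the constant term, is compact -/
lemma aeval_compact {K : X →L[ℂ] X} (hK : IsCompactOperator K) (q : ℂ[X]) :
    IsCompactOperator (aeval K q - (q.coeff 0) • (1 : X →L[ℂ] X) : X →L[ℂ] X) := by
  have h : (aeval K q - (q.coeff 0) • (1 : X →L[ℂ] X) : X →L[ℂ] X) = K ∘L (aeval K q.divX) := by
    have h1 : aeval K q = aeval K (Polynomial.X * q.divX + C (q.coeff 0)) := by
      rw [X_mul_divX_add]
    have h2 : K ∘L (aeval K q.divX) = K * aeval K q.divX := rfl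
    rw [h1, h2, map_add, map_mul, aeval_X, aeval_C, Algebra.algebraMap_eq_smul_one]
    abel
  rw [h]
  exact hK.comp_clm _

/-- Decomposition: `Q` is an identity plus compact operator commuting with `A`, it vanishes on the
kernel of `A` and maps into the range of `A`; then `A` is a compact perturbation of a bijective
operator. -/
theorem exists_bijective [CompleteSpace X] {A Q : X →L[ℂ] X}
    (hQ : IsCompactOperator (Q - 1 : X →L[ℂ] X)) (hc : A * Q = Q * A)
    (h1 : ∀ x, A x = 0 → Q x = 0) (h2 : ∀ x, ∃ y, Q x = A y) :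
    ∃ V : X →L[ℂ] X, Function.Bijective V ∧ IsCompactOperator (V - A : X →L[ℂ] X) := by
  obtain ⟨n, hn⟩ := ascent hQ
  -- stationarity
  have hst : ∀ k x, (Q ^ (n + k)) x = 0 → (Q ^ n) x = 0 := by
    intro k
    induction k with
    | zero => intro x hx; exact hx
    | succ k ih =>
      intro x hx
      apply hn
      have h3 : (Q ^ (n + (k + 1))) x = (Q ^ (n + k)) (Q x) := by
        rw [← mulA, ← pow_succ]; rfl
      rw [h3] at hx
      have h4 := ih _ hx
      rw [pow_succ, mulA]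
      exact h4
  set m := n + 1 with hm
  have hQm : IsCompactOperator (Q ^ m - 1 : X →L[ℂ] X) := pow_sub_one_compact hQ m
  set N := LinearMap.ker ((Q ^ m : X →L[ℂ] X) : X →ₗ[ℂ] X) with hN
  set R := LinearMap.range ((Q ^ m : X →L[ℂ] X) : X →ₗ[ℂ] X) with hR
  have hNf : FiniteDimensional ℂ N := Helper509.SQ.ker_fin hQm
  have hcm : ∀ k x, A ((Q ^ k) x) = (Q ^ k) (A x) := by
    intro k x
    have h3 : A * Q ^ k = Q ^ k * A := (Commute.pow_right (show Commute A Q from hc) k)
    exact congrArg (fun T : X →L[ℂ] X => T x) h3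
  have hdisj : ∀ x, x ∈ N → x ∈ R → x = 0 := by
    rintro x hx ⟨y, rfl⟩
    have hx' : (Q ^ m) ((Q ^ m) y) = 0 := hx
    rw [← mulA, ← pow_add] at hx'
    have h3 : m + m = n + (n + 2) := by omega
    rw [h3] at hx'
    have h4 := hst _ _ hx'
    show (Q ^ m) y = 0
    rw [hm, pow_succ', mulA, h4, map_zero]
  -- a bounded projection onto `N`
  obtain ⟨P, hP⟩ := Submodule.ClosedComplemented.of_finiteDimensional N
  -- the whole space is `N + R`
  have hsum : ∀ x, ∃ a ∈ N, ∃ b ∈ R, x = a + b := by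
    have hc3 : IsCompactOperator (Q ^ m + N.subtypeL.comp P - 1 : X →L[ℂ] X) := by
      have h3 : (Q ^ m + N.subtypeL.comp P - 1 : X →L[ℂ] X) = (Q ^ m - 1) + N.subtypeL.comp P := by
        abel
      rw [h3]
      exact hQm.add ((Helper509.SQ.compact_of_finrank' (N.subtypeL)).comp_clm P)
    have hsurj := Helper509.SQ.surj_of_inj hc3 (by
      intro x hx
      have hx' : (Q ^ m) x + (P x : X) = 0 := hx
      have h3 : (P x : X) = 0 := by
        apply hdisj _ (P x).2
        rw [eq_neg_of_add_eq_zero_right hx']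
        exact R.neg_mem ⟨x, rfl⟩
      rw [h3, add_zero] at hx'
      have h4 := hP ⟨x, hx'⟩
      have h5 : P x = ⟨x, hx'⟩ := h4
      rw [h5] at h3
      exact h3)
    intro x
    obtain ⟨y, hy⟩ := hsurj x
    have hy' : (Q ^ m) y + (P y : X) = x := hy
    exact ⟨P y, (P y).2, (Q ^ m) y, ⟨y, rfl⟩, by rw [← hy']; abel⟩
  have hAN : ∀ x ∈ N, A x ∈ N := by
    intro x hx
    have hx' : (Q ^ m) x = 0 := hx
    show (Q ^ m) (A x) = 0
    rw [← hcm, hx', map_zero]
  have hAR : ∀ x ∈ R, A x ∈ R := by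
    rintro _ ⟨y, rfl⟩
    exact ⟨A y, (hcm m y).symm⟩
  have hAinj : ∀ x ∈ R, A x = 0 → x = 0 := by
    intro x hx hAx
    apply hdisj x _ hx
    show (Q ^ m) x = 0
    rw [hm, pow_succ, mulA, h1 x hAx, map_zero]
  have hAsurj : ∀ y ∈ R, ∃ x ∈ R, A x = y := by
    rintro _ ⟨y, rfl⟩
    have h3 : ∃ w, (Q ^ m) y = A w := by
      obtain ⟨w, hw⟩ := h2 y
      refine ⟨(Q ^ n) w, ?_⟩
      rw [hcm, ← hw, hm, pow_succ, mulA]
    obtain ⟨w, hw⟩ := h3
    obtain ⟨a, ha, b, hb, rfl⟩ := hsum w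
    refine ⟨b, hb, ?_⟩
    rw [map_add] at hw
    have h4 : A a = 0 := by
      apply hdisj _ (hAN a ha)
      have h5 : A a = (Q ^ m) y - A b := by rw [hw]; abel
      rw [h5]
      exact R.sub_mem ⟨y, rfl⟩ (hAR b hb)
    rw [h4, zero_add] at hw
    exact hw.symm
  -- the bijective operator
  let V : X →L[ℂ] X := A.comp (1 - N.subtypeL.comp P) + N.subtypeL.comp P
  have hV : ∀ x, V x = A (x - (P x : X)) + (P x : X) := fun x => rfl
  have hPN : ∀ a ∈ N, (P a : X) = a := by
    intro a ha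
    have h3 : P a = ⟨a, ha⟩ := hP ⟨a, ha⟩
    rw [h3]
  have hVd : ∀ a ∈ N, ∀ b ∈ R, V (a + b) = A b + (a + ((P b : X) - A (P b : X))) := by
    intro a ha b hb
    rw [hV, map_add]
    push_cast
    rw [hPN a ha]
    have h3 : a + b - (a + (P b : X)) = b - (P b : X) := by abel
    rw [h3, map_sub]
    abel
  have hmemN : ∀ a ∈ N, ∀ b, a + ((P b : X) - A (P b : X)) ∈ N := fun a ha b =>
    N.add_mem ha (N.sub_mem (P b).2 (hAN _ (P b).2))
  refine ⟨V, ⟨?_, ?_⟩, ?_⟩
  · rw [injective_iff_map_eq_zero]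
    intro x hx
    obtain ⟨a, ha, b, hb, rfl⟩ := hsum x
    rw [hVd a ha b hb] at hx
    have h3 : A b = 0 := by
      apply hdisj _ _ (hAR b hb)
      rw [eq_neg_of_add_eq_zero_left hx]
      exact N.neg_mem (hmemN a ha b)
    have h4 := hAinj b hb h3
    rw [h4] at hx ⊢
    simpa using hx
  · intro y
    obtain ⟨a, ha, b, hb, rfl⟩ := hsum y
    obtain ⟨b', hb', hbb⟩ := hAsurj b hb
    have h5 : a - ((P b' : X) - A (P b' : X)) ∈ N :=
      N.sub_mem ha (N.sub_mem (P b').2 (hAN _ (P b').2))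
    refine ⟨(a - ((P b' : X) - A (P b' : X))) + b', ?_⟩
    rw [hVd _ h5 b' hb', hbb]
    abel
  · have h3 : (V - A : X →L[ℂ] X) = (1 - A) ∘L (N.subtypeL.comp P) := by
      ext x
      show A (x - (P x : X)) + (P x : X) - A x = (P x : X) - A (P x : X)
      rw [map_sub]
      abel
    rw [h3]
    have h4 : IsCompactOperator (N.subtypeL.comp P) :=
      (Helper509.SQ.compact_of_finrank' (N.subtypeL)).comp_clm P
    exact h4.clm_comp (1 - A)

/-- The main step. -/
theorem exists_invertible [CompleteSpace X] {A K : X →L[ℂ] X} (hK : IsCompactOperator K)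
    (hc : A * K = K * A)
    (hf1 : FiniteDimensional ℂ (LinearMap.ker (A : X →ₗ[ℂ] X)))
    (hf2 : FiniteDimensional ℂ (X ⧸ LinearMap.range (A : X →ₗ[ℂ] X)))
    (h1 : ∀ x, A x = 0 → K x = 0 → x = 0)
    (h2 : ∀ x y, A y = K x → ∃ z, x = A z) :
    ∃ V : X →L[ℂ] X, Function.Bijective V ∧ IsCompactOperator (V - A : X →L[ℂ] X) := by
  set N := LinearMap.ker (A : X →ₗ[ℂ] X) with hN
  set R := LinearMap.range (A : X →ₗ[ℂ] X) with hR
  have hcx : ∀ x, A (K x) = K (A x) := fun x => congrArg (fun T : X →L[ℂ] X => T x) hc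
  have hKN : ∀ x ∈ N, (K : X →ₗ[ℂ] X) x ∈ N := by
    intro x hx
    have hx' : A x = 0 := hx
    show A (K x) = 0
    rw [hcx, hx', map_zero]
  have hKR : R ≤ R.comap (K : X →ₗ[ℂ] X) := by
    rintro _ ⟨y, rfl⟩
    exact ⟨K y, hcx y⟩
  let k1 : N →ₗ[ℂ] N := (K : X →ₗ[ℂ] X).restrict hKN
  let k2 : (X ⧸ R) →ₗ[ℂ] (X ⧸ R) := R.mapQ R (K : X →ₗ[ℂ] X) hKR
  have hk1 : Function.Injective k1 := by
    rw [injective_iff_map_eq_zero]
    rintro ⟨x, hx⟩ h
    apply Subtype.ext
    exact h1 x hx (congrArg Subtype.val h)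
  have hk2 : Function.Injective k2 := by
    rw [injective_iff_map_eq_zero]
    intro z hz
    obtain ⟨x, rfl⟩ := R.mkQ_surjective z
    have h3 : R.mkQ (K x) = 0 := hz
    rw [Submodule.mkQ_apply, Submodule.Quotient.mk_eq_zero] at h3
    obtain ⟨y, hy⟩ := h3
    obtain ⟨w, hw⟩ := h2 x y hy
    rw [Submodule.mkQ_apply, Submodule.Quotient.mk_eq_zero, hw]
    exact ⟨w, rfl⟩
  let q : ℂ[X] := k1.charpoly * k2.charpoly
  have hd1 : k1.charpoly.coeff 0 ≠ 0 := by
    intro h
    have h3 := LinearMap.det_eq_sign_charpoly_coeff k1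
    rw [h, mul_zero] at h3
    have h4 : IsUnit (LinearMap.det k1) := by
      have : Function.Bijective k1 := ⟨hk1, LinearMap.surjective_of_injective hk1⟩
      exact (LinearEquiv.ofBijective k1 this).isUnit_det'
    rw [h3] at h4
    exact not_isUnit_zero h4
  have hd2 : k2.charpoly.coeff 0 ≠ 0 := by
    intro h
    have h3 := LinearMap.det_eq_sign_charpoly_coeff k2
    rw [h, mul_zero] at h3
    have h4 : IsUnit (LinearMap.det k2) := by
      have : Function.Bijective k2 := ⟨hk2, LinearMap.surjective_of_injective hk2⟩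
      exact (LinearEquiv.ofBijective k2 this).isUnit_det'
    rw [h3] at h4
    exact not_isUnit_zero h4
  have hq0 : q.coeff 0 ≠ 0 := by
    rw [mul_coeff_zero]
    exact mul_ne_zero hd1 hd2
  have hq1 : aeval k1 q = 0 := by
    rw [map_mul, LinearMap.aeval_self_charpoly, zero_mul]
  have hq2 : aeval k2 q = 0 := by
    rw [map_mul, LinearMap.aeval_self_charpoly, mul_zero]
  -- polynomials in `K` restrict to polynomials in `k1`, `k2`
  have hp1 : ∀ p : ℂ[X], ∀ x : N, ((aeval k1 p x : N) : X) = (aeval K p) (x : X) := by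
    intro p
    induction p using Polynomial.induction_on' with
    | add p r hp hr =>
      intro x
      rw [map_add, map_add, LinearMap.add_apply, _root_.add_apply, ← hp, ← hr]
      rfl
    | monomial n a =>
      intro x
      rw [aeval_monomial, aeval_monomial]
      have h3 : ∀ n, (((k1 ^ n) x : N) : X) = (K ^ n) (x : X) := by
        intro n
        induction n with
        | zero => rfl
        | succ n ih =>
          rw [pow_succ', pow_succ', mulA, mulE, ← ih]
          rfl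
      rw [mulA, mulE, ← h3, Algebra.algebraMap_eq_smul_one,
        Algebra.algebraMap_eq_smul_one]
      rfl
  have hp2 : ∀ p : ℂ[X], ∀ x : X, aeval k2 p (R.mkQ x) = R.mkQ ((aeval K p) x) := by
    intro p
    induction p using Polynomial.induction_on' with
    | add p r hp hr =>
      intro x
      rw [map_add, map_add, LinearMap.add_apply, _root_.add_apply, hp, hr, map_add]
    | monomial n a =>
      intro x
      rw [aeval_monomial, aeval_monomial]
      have h3 : ∀ n, (k2 ^ n) (R.mkQ x) = R.mkQ ((K ^ n) x) := by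
        intro n
        induction n with
        | zero => rfl
        | succ n ih =>
          rw [pow_succ', pow_succ', mulA, mulE, ih]
          rfl
      rw [mulA, mulE, h3, Algebra.algebraMap_eq_smul_one,
        Algebra.algebraMap_eq_smul_one]
      rfl
  let Q : X →L[ℂ] X := (q.coeff 0)⁻¹ • aeval K q
  have hQc : IsCompactOperator (Q - 1 : X →L[ℂ] X) := by
    have h3 : (Q - 1 : X →L[ℂ] X) = (q.coeff 0)⁻¹ • (aeval K q - (q.coeff 0) • (1 : X →L[ℂ] X)) := by
      rw [smul_sub, smul_smul, inv_mul_cancel₀ hq0, one_smul]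
    rw [h3]
    exact (aeval_compact hK q).smul _
  have hAK : Commute A (aeval K q) := by
    have h3 : ∀ p : ℂ[X], Commute A (aeval K p) := by
      intro p
      induction p using Polynomial.induction_on' with
      | add p r hp hr => rw [map_add]; exact hp.add_right hr
      | monomial n a =>
        rw [aeval_monomial]
        have h4 : Commute A ((algebraMap ℂ (X →L[ℂ] X)) a) := (Algebra.commutes a A).symm
        exact h4.mul_right ((show Commute A K from hc).pow_right n)
    exact h3 q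
  have hcQ : A * Q = Q * A := by
    have h3 : A * aeval K q = aeval K q * A := hAK
    show A * ((q.coeff 0)⁻¹ • aeval K q) = ((q.coeff 0)⁻¹ • aeval K q) * A
    rw [mul_smul_comm, smul_mul_assoc, h3]
  refine exists_bijective hQc hcQ ?_ ?_
  · intro x hx
    have h3 := hp1 q ⟨x, hx⟩
    rw [hq1] at h3
    show (q.coeff 0)⁻¹ • (aeval K q) x = 0
    rw [← h3]
    simp
  · intro x
    have h3 := hp2 q x
    rw [hq2] at h3
    have h4 : R.mkQ ((aeval K q) x) = 0 := h3.symm
    rw [Submodule.mkQ_apply, Submodule.Quotient.mk_eq_zero] at h4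
    obtain ⟨y, hy⟩ := h4
    refine ⟨(q.coeff 0)⁻¹ • y, ?_⟩
    show (q.coeff 0)⁻¹ • (aeval K q) x = A ((q.coeff 0)⁻¹ • y)
    rw [map_smul]
    congr 1
    exact hy.symm

end Pool.Agent.V8H59.KP
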