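import Pool.Agent.V8H59.KP.Core

/-!
Index formula, quasi-inverses, the unilateral shift.
-/

set_option autoImplicit false

open Filter Topology Module

namespace Pool.Agent.V8H59.KP

open Pool.Agent.Helper509.SQ

section
variable {X : Type} [NormedAddCommGroup X] [NormedSpace ℂ X] [CompleteSpace X]

/-- the index of an operator with finite-dimensional kernel and cokernel -/
lemma bd_index (T : X →L[ℂ] X)
    (h1 : FiniteDimensional ℂ (LinearMap.ker (T : X →ₗ[ℂ] X)))
    (h2 : FiniteDimensional ℂ (X ⧸ LinearMap.range (T : X →ₗ[ℂ] X))) :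
    Bd T ((finrank ℂ (LinearMap.ker (T : X →ₗ[ℂ] X)) : ℤ) -
      finrank ℂ (X ⧸ LinearMap.range (T : X →ₗ[ℂ] X))) := by
  set N := LinearMap.ker (T : X →ₗ[ℂ] X) with hN
  set R := LinearMap.range (T : X →ₗ[ℂ] X) with hR
  obtain ⟨C, hC⟩ := Submodule.exists_isCompl R
  have hCf : FiniteDimensional ℂ C :=
    (Submodule.quotientEquivOfIsCompl R C hC).finiteDimensional
  obtain ⟨P, hP⟩ := Submodule.ClosedComplemented.of_finiteDimensional N
  have := FiniteDimensional.complete ℂ C
  have := FiniteDimensional.complete ℂ N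
  let f : (X × C) →L[ℂ] (X × N) :=
    (T.comp (ContinuousLinearMap.fst ℂ X C) + C.subtypeL.comp (ContinuousLinearMap.snd ℂ X C)).prod
      (P.comp (ContinuousLinearMap.fst ℂ X C))
  have hf : ∀ x c, f (x, c) = (T x + c, P x) := fun x c => rfl
  have hinj : LinearMap.ker (f : (X × C) →ₗ[ℂ] (X × N)) = ⊥ := by
    rw [LinearMap.ker_eq_bot']
    rintro ⟨x, c⟩ h
    have h' : (T x + (c : X), P x) = 0 := h
    have h3 : T x + (c : X) = 0 := congrArg Prod.fst h'
    have h4 : P x = 0 := congrArg Prod.snd h'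
    have h5 : (c : X) = 0 := by
      have h6 : (c : X) ∈ R := by
        rw [eq_neg_of_add_eq_zero_right h3]
        exact R.neg_mem ⟨x, rfl⟩
      exact (Submodule.disjoint_def.1 hC.disjoint) _ h6 c.2
    have h6 : x ∈ N := by
      rw [h5, add_zero] at h3
      exact h3
    have h7 : x = 0 := by
      have h8 := hP ⟨x, h6⟩
      have h9 : P x = ⟨x, h6⟩ := h8
      rw [h4] at h9
      exact (congrArg Subtype.val h9).symm
    rw [h7]
    exact Prod.ext rfl (Subtype.ext h5)
  have hsurj : LinearMap.range (f : (X × C) →ₗ[ℂ] (X × N)) = ⊤ := by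
    rw [LinearMap.range_eq_top]
    rintro ⟨y, n⟩
    obtain ⟨r, hr, c, hc, hrc⟩ := Submodule.mem_sup.1 (hC.sup_eq_top ▸ Submodule.mem_top (x := y))
    obtain ⟨x, hx⟩ := hr
    refine ⟨(x + (n - P x : N), ⟨c, hc⟩), ?_⟩
    show (T (x + (n - P x : N)) + c, P (x + (n - P x : N))) = (y, n)
    have h3 : T ((n - P x : N) : X) = 0 := (n - P x : N).2
    have h4 : P ((n - P x : N) : X) = n - P x := hP _
    have h5 : T x = r := hx
    rw [map_add, h3, add_zero, map_add, h4, h5, hrc]
    simp
  have hfr : finrank ℂ (X ⧸ R) = finrank ℂ C :=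
    (Submodule.quotientEquivOfIsCompl R C hC).finrank_eq
  rw [hfr]
  refine ⟨N, C, inferInstance, inferInstance, h1, inferInstance, inferInstance, hCf,
    ContinuousLinearEquiv.ofBijective f hinj hsurj, rfl, fun x => ?_⟩
  show (f (x, 0)).1 = T x
  rw [hf]
  simp

/-- a quasi-inverse -/
lemma exists_quasi {T : X →L[ℂ] X} {n : ℤ} (hT : Bd T n) : ∃ S : X →L[ℂ] X,
    IsCompactOperator (S.comp T - 1 : X →L[ℂ] X) ∧
    IsCompactOperator (T.comp S - 1 : X →L[ℂ] X) := by
  obtain ⟨F, G, i1, i2, i3, i4, i5, i6, M, hm, hM⟩ := hT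
  let a : X →L[ℂ] X := (ContinuousLinearMap.fst ℂ X G).comp
    ((M.symm : (X × F) →L[ℂ] (X × G)).comp (ContinuousLinearMap.inl ℂ X F))
  let b : X →L[ℂ] G := (ContinuousLinearMap.snd ℂ X G).comp
    ((M.symm : (X × F) →L[ℂ] (X × G)).comp (ContinuousLinearMap.inl ℂ X F))
  let c : G →L[ℂ] X := (ContinuousLinearMap.fst ℂ X F).comp
    ((M : (X × G) →L[ℂ] (X × F)).comp (ContinuousLinearMap.inr ℂ X G))
  let d : X →L[ℂ] F := (ContinuousLinearMap.snd ℂ X F).comp
    ((M : (X × G) →L[ℂ] (X × F)).comp (ContinuousLinearMap.inl ℂ X G))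
  let g : F →L[ℂ] X := (ContinuousLinearMap.fst ℂ X G).comp
    ((M.symm : (X × F) →L[ℂ] (X × G)).comp (ContinuousLinearMap.inr ℂ X F))
  have hcor : ∀ y, T (a y) + c (b y) = y := by
    intro y
    have h1 : M (a y, b y) = (y, 0) := M.apply_symm_apply (y, 0)
    have h2 : M (a y, b y) = M (a y, 0) + M (0, b y) := by rw [← map_add]; simp
    rw [h2] at h1
    have h3 := congrArg Prod.fst h1
    rw [Prod.fst_add, hM] at h3
    exact h3
  have hcor2 : ∀ x, a (T x) + g (d x) = x := by
    intro x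
    have h0 : M (x, 0) = (T x, d x) := Prod.ext (hM x) rfl
    have h1 : M.symm (T x, d x) = (x, 0) := by rw [← h0, M.symm_apply_apply]
    have h2 : M.symm (T x, d x) = M.symm (T x, 0) + M.symm (0, d x) := by rw [← map_add]; simp
    rw [h2] at h1
    exact congrArg Prod.fst h1
  refine ⟨a, ?_, ?_⟩
  · have h1 : (a.comp T - 1 : X →L[ℂ] X) = -(g.comp d) := by
      ext x
      show a (T x) - x = -(g (d x))
      have := hcor2 x
      nth_rewrite 2 [← this]
      abel
    rw [h1]
    have h2 : IsCompactOperator (g.comp d) := (compact_of_finrank' g).comp_clm d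
    exact h2.neg
  · have h1 : (T.comp a - 1 : X →L[ℂ] X) = -(c.comp b) := by
      ext x
      show T (a x) - x = -(c (b x))
      have := hcor x
      nth_rewrite 2 [← this]
      abel
    rw [h1]
    have h2 : IsCompactOperator (c.comp b) := (compact_of_finrank' c).comp_clm b
    exact h2.neg

/-- compact perturbations keep kernel and cokernel finite-dimensional -/
lemma fin_perturb {T K : X →L[ℂ] X} {n : ℤ} (hT : Bd T n) (hK : IsCompactOperator K) :
    FiniteDimensional ℂ (LinearMap.ker ((T + K : X →L[ℂ] X) : X →ₗ[ℂ] X)) ∧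
    FiniteDimensional ℂ (X ⧸ LinearMap.range ((T + K : X →L[ℂ] X) : X →ₗ[ℂ] X)) := by
  obtain ⟨S, h1, h2⟩ := exists_quasi hT
  have h1' : IsCompactOperator (S.comp (T + K) - 1 : X →L[ℂ] X) := by
    have h3 : (S.comp (T + K) - 1 : X →L[ℂ] X) = (S.comp T - 1) + S.comp K := by
      rw [ContinuousLinearMap.comp_add]; abel
    rw [h3]
    exact h1.add (hK.clm_comp S)
  have h2' : IsCompactOperator ((T + K).comp S - 1 : X →L[ℂ] X) := by
    have h3 : ((T + K).comp S - 1 : X →L[ℂ] X) = (T.comp S - 1) + K.comp S := by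
      rw [ContinuousLinearMap.add_comp]; abel
    rw [h3]
    exact h2.add (hK.comp_clm S)
  constructor
  · have := ker_fin h1'
    refine Submodule.finiteDimensional_of_le
      (S₂ := LinearMap.ker ((S.comp (T + K) : X →L[ℂ] X) : X →ₗ[ℂ] X)) ?_
    intro x hx
    have hx' : (T + K) x = 0 := hx
    show S ((T + K) x) = 0
    rw [hx', map_zero]
  · have := quot_fin h2'
    have hle : LinearMap.range (((T + K).comp S : X →L[ℂ] X) : X →ₗ[ℂ] X) ≤
        LinearMap.range ((T + K : X →L[ℂ] X) : X →ₗ[ℂ] X) := by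
      rintro _ ⟨y, rfl⟩
      exact ⟨S y, rfl⟩
    exact Module.Finite.of_surjective (Submodule.factor hle) (Submodule.factor_surjective hle)

/-- an operator of index zero has a compact perturbation which is bijective -/
lemma exists_compact_bij (T : X →L[ℂ] X)
    (h1 : FiniteDimensional ℂ (LinearMap.ker (T : X →ₗ[ℂ] X)))
    (h2 : FiniteDimensional ℂ (X ⧸ LinearMap.range (T : X →ₗ[ℂ] X)))
    (h3 : finrank ℂ (LinearMap.ker (T : X →ₗ[ℂ] X)) =
      finrank ℂ (X ⧸ LinearMap.range (T : X →ₗ[ℂ] X))) :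
    ∃ K : X →L[ℂ] X, IsCompactOperator K ∧ Function.Bijective (T + K) := by
  set N := LinearMap.ker (T : X →ₗ[ℂ] X) with hN
  set R := LinearMap.range (T : X →ₗ[ℂ] X) with hR
  obtain ⟨C, hC⟩ := Submodule.exists_isCompl R
  have hCf : FiniteDimensional ℂ C :=
    (Submodule.quotientEquivOfIsCompl R C hC).finiteDimensional
  have hfr : finrank ℂ (X ⧸ R) = finrank ℂ C :=
    (Submodule.quotientEquivOfIsCompl R C hC).finrank_eq
  obtain ⟨P, hP⟩ := Submodule.ClosedComplemented.of_finiteDimensional N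
  let e : N ≃ₗ[ℂ] C := LinearEquiv.ofFinrankEq N C (by rw [h3, hfr])
  let J : N →L[ℂ] X := LinearMap.toContinuousLinearMap (C.subtype ∘ₗ (e : N →ₗ[ℂ] C))
  have hJ : ∀ a, J a = ((e a : C) : X) := fun a => rfl
  refine ⟨J.comp P, (compact_of_finrank' J).comp_clm P, ?_, ?_⟩
  · rw [injective_iff_map_eq_zero]
    intro x hx
    have hx' : T x + J (P x) = 0 := hx
    have h5 : J (P x) = 0 := by
      apply (Submodule.disjoint_def.1 hC.disjoint)
      · rw [eq_neg_of_add_eq_zero_right hx']
        exact R.neg_mem ⟨x, rfl⟩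
      · rw [hJ]; exact (e (P x)).2
    have h6 : P x = 0 := by
      rw [hJ] at h5
      exact e.injective (by rw [map_zero]; exact Subtype.ext h5)
    have h7 : x ∈ N := by
      rw [h5, add_zero] at hx'
      exact hx'
    have h8 : P x = ⟨x, h7⟩ := hP ⟨x, h7⟩
    rw [h6] at h8
    exact (congrArg Subtype.val h8).symm
  · intro y
    obtain ⟨r, hr, c, hc, hrc⟩ := Submodule.mem_sup.1 (hC.sup_eq_top ▸ Submodule.mem_top (x := y))
    obtain ⟨u, hu⟩ := hr
    refine ⟨u + ((e.symm ⟨c, hc⟩ - P u : N) : X), ?_⟩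
    show T (u + ((e.symm ⟨c, hc⟩ - P u : N) : X)) + J (P (u + ((e.symm ⟨c, hc⟩ - P u : N) : X))) = y
    have h4 : T ((e.symm ⟨c, hc⟩ - P u : N) : X) = 0 := (e.symm ⟨c, hc⟩ - P u : N).2
    have h5 : P ((e.symm ⟨c, hc⟩ - P u : N) : X) = e.symm ⟨c, hc⟩ - P u := hP _
    have h6 : T u = r := hu
    rw [map_add, h4, add_zero, map_add, h5, h6, add_sub_cancel, hJ, LinearEquiv.apply_symm_apply]
    exact hrc

end

/-! ### the shift -/

/-- square summable sequences -/
abbrev H2 : Type := lp (fun _ : ℕ => ℂ) 2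

lemma ortho_succ : Orthonormal ℂ (fun k : ℕ => (lp.single 2 (k + 1) (1 : ℂ) : H2)) := by
  rw [orthonormal_iff_ite]
  intro i j
  rw [lp.inner_single_left]
  by_cases h : i = j
  · subst h; simp
  · have h2 : i + 1 ≠ j + 1 := by omega
    simp [h]

/-- the unilateral shift -/
noncomputable def shift : H2 →L[ℂ] H2 := ortho_succ.orthogonalFamily.linearIsometry.toContinuousLinearMap

lemma shift_single (k : ℕ) : shift (lp.single 2 k (1 : ℂ)) = lp.single 2 (k + 1) (1 : ℂ) := by
  show ortho_succ.orthogonalFamily.linearIsometry _ = _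
  rw [OrthogonalFamily.linearIsometry_apply_single]
  simp

lemma norm_shift (x : H2) : ‖shift x‖ = ‖x‖ :=
  ortho_succ.orthogonalFamily.linearIsometry.norm_map x

lemma single_eq (i : ℕ) (a : ℂ) : (lp.single 2 i a : H2) = a • (lp.single 2 i (1 : ℂ) : H2) := by
  ext j
  rw [lp.coeFn_smul, Pi.smul_apply, smul_eq_mul]
  by_cases h : j = i
  · subst h; simp
  · simp [h]

lemma shift_range (y : H2) (hy : y 0 = 0) : ∃ x, shift x = y := by
  have hcl : IsClosed (Set.range shift) := by
    have : Isometry shift := ortho_succ.orthogonalFamily.linearIsometry.isometry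
    exact this.isClosedEmbedding.isClosed_range
  have h1 := lp.hasSum_single (p := 2) (by norm_num) y
  have h2 : y ∈ closure (Set.range shift) := by
    refine mem_closure_of_tendsto h1 (Eventually.of_forall fun s => ?_)
    have h3 : ∀ i, ∃ z : H2, shift z = (lp.single 2 i (y i) : H2) := by
      intro i
      rcases i with _ | i
      · refine ⟨0, ?_⟩
        rw [hy, map_zero]
        ext j
        simp
      · refine ⟨y (i + 1) • lp.single 2 i (1 : ℂ), ?_⟩
        rw [map_smul, shift_single, ← single_eq]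
    choose z hz using h3
    refine ⟨∑ i ∈ s, z i, ?_⟩
    rw [map_sum]
    exact Finset.sum_congr rfl fun i _ => hz i
  rw [hcl.closure_eq] at h2
  exact h2

lemma shift_zero (x : H2) : (shift x) 0 = 0 := by
  have h1 := lp.hasSum_single (p := 2) (by norm_num) x
  have h2 := h1.mapL ((innerSL ℂ (lp.single 2 0 (1 : ℂ) : H2)).comp shift)
  have h3 : (fun i => ((innerSL ℂ (lp.single 2 0 (1 : ℂ) : H2)).comp shift)
      (lp.single 2 i (x i) : H2)) = fun _ => 0 := by
    funext i
    show inner ℂ (lp.single 2 0 (1 : ℂ) : H2) (shift (lp.single 2 i (x i) : H2)) = 0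
    rw [single_eq i, map_smul, shift_single, inner_smul_right, lp.inner_single_left]
    simp
  rw [h3] at h2
  have h4 : inner ℂ (lp.single 2 0 (1 : ℂ) : H2) (shift x) = 0 := h2.unique hasSum_zero
  rw [lp.inner_single_left] at h4
  simpa using h4

end Pool.Agent.V8H59.KP
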